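import Mathlib

set_option autoImplicit false

namespace Pool.Agent.Results.MP_fe8c60_co.Unbounded

/-- The planar square grid. -/
def grid : SimpleGraph (ℤ × ℤ) where
  Adj a b := |a.1 - b.1| + |a.2 - b.2| = 1
  symm := ⟨fun a b h => by rwa [abs_sub_comm b.1, abs_sub_comm b.2]⟩
  loopless := ⟨fun a h => by simp at h⟩

/-- The number of interior vertices of a vertex list where it switches between a vertical step
(first coordinate unchanged) and a horizontal step. -/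
def bends : List (ℤ × ℤ) → ℕ
  | a :: b :: c :: l => (if (a.1 = b.1 ↔ b.1 = c.1) then 0 else 1) + bends (b :: c :: l)
  | _ => 0

/-- A path in the grid. -/
structure GridPath where
  src : ℤ × ℤ
  tgt : ℤ × ℤ
  walk : grid.Walk src tgt
  isPath : walk.IsPath

/-- `G` has a `k`-bend EPG representation. -/
def HasEPG {V : Type} (G : SimpleGraph V) (k : ℕ) : Prop :=
  ∃ P : V → GridPath, (∀ v, bends (P v).walk.support ≤ k) ∧
    ∀ u v, u ≠ v → (G.Adj u v ↔ ∃ e, e ∈ (P u).walk.edges ∧ e ∈ (P v).walk.edges)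

/-- No induced `K_{1,3}`. -/
def ClawFree {V : Type} (G : SimpleGraph V) : Prop :=
  IsEmpty (completeBipartiteGraph (Fin 1) (Fin 3) ↪g G)

abbrev Ln : Type := Bool × ℤ

def edge (l : Ln) (t : ℤ) : Sym2 (ℤ × ℤ) :=
  if l.1 then s((l.2, t), (l.2, t + 1)) else s((t, l.2), (t + 1, l.2))

lemma edge_inj {l l' : Ln} {t t' : ℤ} (h : edge l t = edge l' t') : l = l' ∧ t = t' := by
  obtain ⟨b, c⟩ := l
  obtain ⟨b', c'⟩ := l'
  cases b <;> cases b' <;> simp [edge] at h ⊢ <;> omega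

def ln (a b : ℤ × ℤ) : Ln := if a.1 = b.1 then (true, a.1) else (false, a.2)

def tt (a b : ℤ × ℤ) : ℤ := if a.1 = b.1 then min a.2 b.2 else min a.1 b.1

lemma adj_cases {a b : ℤ × ℤ} (h : grid.Adj a b) :
    (a.1 = b.1 ∧ (a.2 = b.2 + 1 ∨ b.2 = a.2 + 1)) ∨ (a.2 = b.2 ∧ (a.1 = b.1 + 1 ∨ b.1 = a.1 + 1)) := by
  have : |a.1 - b.1| + |a.2 - b.2| = 1 := h
  rcases abs_cases (a.1 - b.1) with p | p <;> rcases abs_cases (a.2 - b.2) with q | q <;> omega

lemma edge_eq {a b : ℤ × ℤ} (h : grid.Adj a b) : edge (ln a b) (tt a b) = s(a, b) := by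
  have := adj_cases h
  obtain ⟨x, y⟩ := a
  obtain ⟨z, w⟩ := b
  by_cases e : x = z <;> simp [edge, ln, tt, e] at this ⊢ <;> omega

abbrev Seg : Type := Ln × ℤ × ℤ

def mem (e : Sym2 (ℤ × ℤ)) (s : Seg) : Prop := ∃ t, s.2.1 ≤ t ∧ t ≤ s.2.2 ∧ e = edge s.1 t

lemma segs_cons : ∀ {b c : ℤ × ℤ} (p : grid.Walk b c) {a : ℤ × ℤ} (h : grid.Adj a b),
    ∃ (s : Seg) (L : List Seg), L.length ≤ bends (a :: p.support) ∧ s.1 = ln a b ∧
      s.2.1 ≤ tt a b ∧ tt a b ≤ s.2.2 ∧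
      ∀ e, e ∈ (SimpleGraph.Walk.cons h p).edges ↔ ∃ x ∈ s :: L, mem e x := by
  intro b c p
  induction p with
  | nil =>
    intro a h
    refine ⟨(ln a _, tt a _, tt a _), [], by simp, rfl, le_rfl, le_rfl, fun e => ?_⟩
    simp only [SimpleGraph.Walk.edges_cons, SimpleGraph.Walk.edges_nil, List.mem_singleton,
      exists_eq_left, mem, ← edge_eq h]
    exact ⟨fun q => ⟨_, le_rfl, le_rfl, q⟩, fun ⟨t, h1, h2, q⟩ => by rw [q, le_antisymm h2 h1]⟩
  | @cons b c d h' p ih =>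
    intro a h
    obtain ⟨s, L, h1, h2, h3, h4, h5⟩ := ih h'
    have hb : bends (a :: (SimpleGraph.Walk.cons h' p).support) =
        (if (a.1 = b.1 ↔ b.1 = c.1) then 0 else 1) + bends (b :: p.support) := by
      rw [SimpleGraph.Walk.support_cons, ← p.cons_tail_support]
      rfl
    rw [hb]
    have he : ∀ e, e ∈ (SimpleGraph.Walk.cons h (SimpleGraph.Walk.cons h' p)).edges ↔
        e = edge (ln a b) (tt a b) ∨ mem e s ∨ ∃ x ∈ L, mem e x := by
      intro e
      rw [SimpleGraph.Walk.edges_cons, List.mem_cons, h5, edge_eq h]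
      simp
    by_cases q : (a.1 = b.1 ↔ b.1 = c.1)
    · have k1 := adj_cases h
      have k2 := adj_cases h'
      have e1 : ln a b = ln b c := by
        unfold ln
        split_ifs with u v v
        · rw [u]
        · exact absurd (q.1 u) v
        · exact absurd (q.2 v) u
        · rw [show a.2 = b.2 by omega]
      have e2 : tt a b ≤ tt b c + 1 ∧ tt b c ≤ tt a b + 1 := by
        unfold tt
        split_ifs with u v v
        · omega
        · exact absurd (q.1 u) v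
        · exact absurd (q.2 v) u
        · omega
      refine ⟨(s.1, min s.2.1 (tt a b), max s.2.2 (tt a b)), L, by omega, h2.trans e1.symm,
        min_le_right _ _, le_max_right _ _, fun e => ?_⟩
      rw [he, ← or_assoc, e1, ← h2]
      simp only [List.mem_cons, exists_eq_or_imp]
      refine or_congr_left ⟨?_, ?_⟩
      · rintro (rfl | ⟨t, a1, a2, rfl⟩)
        · exact ⟨_, min_le_right _ _, le_max_right _ _, rfl⟩
        · exact ⟨t, (min_le_left _ _).trans a1, a2.trans (le_max_left _ _), rfl⟩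
      · rintro ⟨t, a1, a2, rfl⟩
        by_cases z : t = tt a b
        · exact Or.inl (by rw [z])
        · exact Or.inr ⟨t, by simp only at a1; omega, by simp only at a2; omega, rfl⟩
    · refine ⟨(ln a b, tt a b, tt a b), s :: L, by rw [if_neg q, List.length_cons]; omega, rfl,
        le_rfl, le_rfl, fun e => ?_⟩
      rw [he]
      simp only [List.mem_cons, exists_eq_or_imp]
      refine or_congr_left ⟨fun z => ⟨_, le_rfl, le_rfl, z⟩, fun ⟨t, a1, a2, z⟩ => ?_⟩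
      rw [z, le_antisymm a2 a1]

lemma segs (k : ℕ) (P : GridPath) (h : bends P.walk.support ≤ k) :
    ∃ f : Fin (k + 1) → Seg, ∀ e, e ∈ P.walk.edges ↔ ∃ j, mem e (f j) := by
  obtain ⟨L, h1, h2⟩ : ∃ L : List Seg, L.length ≤ k + 1 ∧
      ∀ e, e ∈ P.walk.edges ↔ ∃ x ∈ L, mem e x := by
    obtain ⟨a, c, p, hp⟩ := P
    cases p with
    | nil => exact ⟨[], by simp, by simp⟩
    | cons h' p =>
      obtain ⟨s, L, h1, -, -, -, h5⟩ := segs_cons p h'
      exact ⟨s :: L, by simp only [SimpleGraph.Walk.support_cons] at h; simp; omega, h5⟩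
  refine ⟨fun j => L.getD j ((true, 0), 1, 0), fun e => (h2 e).trans ⟨?_, ?_⟩⟩
  · rintro ⟨x, hx, m⟩
    obtain ⟨i, hi, rfl⟩ := List.getElem_of_mem hx
    exact ⟨⟨i, by omega⟩, by beta_reduce; rwa [List.getD_eq_getElem _ _ hi]⟩
  · rintro ⟨j, m⟩
    beta_reduce at m
    by_cases q : j.1 < L.length
    · rw [List.getD_eq_getElem _ _ q] at m
      exact ⟨_, List.getElem_mem q, m⟩
    · rw [List.getD_eq_default _ _ (by omega)] at m
      obtain ⟨t, a1, a2, -⟩ := m
      simp only at a1 a2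
      omega

def tr {ι : Type} (S : ι → Seg) : Option (ι × ι) → ι → Prop
  | none, _ => False
  | some (x, y), i => (S i).2.1 ≤ (S i).2.2 ∧ (S i).1 = (S x).1 ∧ (S x).2.2 ≤ (S i).2.2 ∧
      (S i).2.1 ≤ (S y).2.1

lemma trace {ι : Type} [Finite ι] (S : ι → Seg) (s : Seg) :
    ∃ o, ∀ i, (∃ e, mem e (S i) ∧ mem e s) ↔ tr S o i := by
  have key : ∀ i, (∃ e, mem e (S i) ∧ mem e s) ↔ (S i).1 = s.1 ∧
      ∃ t, (S i).2.1 ≤ t ∧ t ≤ (S i).2.2 ∧ s.2.1 ≤ t ∧ t ≤ s.2.2 := by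
    intro i
    constructor
    · rintro ⟨e, ⟨t, a1, a2, rfl⟩, t', b1, b2, q⟩
      obtain ⟨q1, rfl⟩ := edge_inj q
      exact ⟨q1, t, a1, a2, b1, b2⟩
    · rintro ⟨q, t, a1, a2, b1, b2⟩
      exact ⟨_, ⟨t, a1, a2, rfl⟩, t, b1, b2, by rw [q]⟩
  by_cases h : {i | ∃ e, mem e (S i) ∧ mem e s}.Nonempty
  · obtain ⟨x, hx, mx⟩ := Set.exists_min_image _ (fun i => (S i).2.2) (Set.toFinite _) h
    obtain ⟨y, hy, my⟩ := Set.exists_max_image _ (fun i => (S i).2.1) (Set.toFinite _) h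
    obtain ⟨x1, t, x2⟩ := (key x).1 hx
    obtain ⟨y1, u, y2⟩ := (key y).1 hy
    refine ⟨some (x, y), fun i => ⟨fun hi => ?_, fun hi => ?_⟩⟩
    · obtain ⟨i1, v, i2⟩ := (key i).1 hi
      exact ⟨by omega, i1.trans x1.symm, mx i hi, my i hi⟩
    · obtain ⟨a1, a2, a3, a4⟩ := hi
      exact (key i).2 ⟨a2.trans x1, max (S i).2.1 s.2.1, by omega⟩
  · exact ⟨none, fun i => ⟨fun hi => h ⟨i, hi⟩, False.elim⟩⟩

def Gm (m : ℕ) : SimpleGraph (Fin m ⊕ Set (Fin m)) := SimpleGraph.fromRel fun u v =>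
  match u, v with
  | Sum.inl _, Sum.inl _ => True
  | Sum.inr _, Sum.inr _ => True
  | Sum.inl a, Sum.inr b => a ∈ b
  | Sum.inr _, Sum.inl _ => False

lemma claw (m : ℕ) : ClawFree (Gm m) := by
  refine ⟨fun f => ?_⟩
  have k : ∀ i j : Fin 3, i ≠ j → (f (Sum.inr i)).isLeft ≠ (f (Sum.inr j)).isLeft := by
    intro i j ne e
    have n1 : ¬ (Gm m).Adj (f (Sum.inr i)) (f (Sum.inr j)) := by simp [f.map_adj_iff]
    have n2 : f (Sum.inr i) ≠ f (Sum.inr j) := fun q => ne (Sum.inr_injective (f.injective q))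
    revert n1 n2 e
    rcases f (Sum.inr i) with a | a <;> rcases f (Sum.inr j) with b | b <;>
      simp +contextual [Gm, SimpleGraph.fromRel_adj]
  have a := k 0 1 (by decide)
  have b := k 0 2 (by decide)
  have c := k 1 2 (by decide)
  revert a b c
  cases (f (Sum.inr 0)).isLeft <;> cases (f (Sum.inr 1)).isLeft <;>
    cases (f (Sum.inr 2)).isLeft <;> simp

lemma count (m k : ℕ) (h : HasEPG (Gm m) k) : 2 ^ m ≤ ((m * (k + 1)) ^ 2 + 1) ^ (k + 1) := by
  classical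
  obtain ⟨P, h1, h2⟩ := h
  choose f hf using fun v => segs k (P v) (h1 v)
  choose o ho using trace fun i : Fin m × Fin (k + 1) => f (Sum.inl i.1) i.2
  have mem_iff : ∀ (a : Fin m) (b : Set (Fin m)), a ∈ b ↔ ∃ j i,
      tr (fun i : Fin m × Fin (k + 1) => f (Sum.inl i.1) i.2) (o (f (Sum.inr b) j)) (a, i) := by
    intro a b
    have := h2 (Sum.inl a) (Sum.inr b) (by simp)
    simp only [Gm, SimpleGraph.fromRel_adj, ne_eq, reduceCtorEq, not_false_eq_true, or_false,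
      true_and, hf] at this
    simp only [this, ← ho]
    exact ⟨fun ⟨e, ⟨i, p⟩, j, q⟩ => ⟨j, i, e, p, q⟩, fun ⟨j, i, e, p, q⟩ => ⟨e, ⟨i, p⟩, j, q⟩⟩
  have inj : Function.Injective fun (b : Set (Fin m)) (j : Fin (k + 1)) => o (f (Sum.inr b) j) := by
    intro b c e
    ext a
    rw [mem_iff, mem_iff]
    simp only [congrFun e]
  have := Fintype.card_le_of_injective _ inj
  simpa [sq] using this

lemma big (k : ℕ) : ∃ m, ((m * (k + 1)) ^ 2 + 1) ^ (k + 1) < 2 ^ m := by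
  have t := tendsto_pow_const_div_const_pow_of_one_lt (2 * (k + 1)) (r := (2 : ℝ)) (by norm_num)
  have c : (0 : ℝ) < 1 / (2 * ((k : ℝ) + 1) ^ 2) ^ (k + 1) := by positivity
  obtain ⟨m, h1, h2⟩ := ((t.eventually (gt_mem_nhds c)).and (Filter.eventually_ge_atTop 1)).exists
  refine ⟨m, ?_⟩
  rw [div_lt_div_iff₀ (by positivity) (by positivity), one_mul, pow_mul, ← mul_pow] at h1
  have h3 : (m * (k + 1)) ^ 2 + 1 ≤ m ^ 2 * (2 * (k + 1) ^ 2) := by
    have : 1 ≤ (m * (k + 1)) ^ 2 := Nat.one_le_pow _ _ (by positivity)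
    nlinarith
  refine (Nat.pow_le_pow_left h3 _).trans_lt ?_
  exact_mod_cast h1

theorem result : ∀ k : ℕ, ∃ (V : Type) (_ : Finite V) (G : SimpleGraph V),
    ClawFree G ∧ ¬ HasEPG G k := by
  intro k
  obtain ⟨m, hm⟩ := big k
  exact ⟨_, inferInstance, Gm m, claw m, fun h => absurd (count m k h) (by omega)⟩

end Pool.Agent.Results.MP_fe8c60_co.Unbounded
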